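import Mathlib

/-! Polynomial phases as products of bounded functions at the other vertices of a cube. -/

namespace Pool.Agent.N788.PP

open Finset Polynomial

/-- `e(t) = exp (2 π i t)` -/
noncomputable def e (t : ℝ) : ℂ := Complex.exp (((2 * Real.pi * t : ℝ) : ℂ) * Complex.I)

lemma e_add (s t : ℝ) : e (s + t) = e s * e t := by
  unfold e
  rw [← Complex.exp_add]
  congr 1
  push_cast
  ring

lemma e_zero : e 0 = 1 := by
  unfold e
  simp

lemma norm_e (t : ℝ) : ‖e t‖ = 1 := by
  unfold e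
  rw [Complex.norm_exp_ofReal_mul_I]

lemma e_sum {ι : Type*} (S : Finset ι) (f : ι → ℝ) : e (∑ i ∈ S, f i) = ∏ i ∈ S, e (f i) := by
  classical
  induction S using Finset.induction_on with
  | empty => simp [e_zero]
  | insert a S ha ih => rw [sum_insert ha, prod_insert ha, e_add, ih]

lemma e_cs (t : ℝ) : e t = (Real.cos (2 * Real.pi * t) : ℂ) + Complex.I * (Real.sin (2 * Real.pi * t) : ℂ) := by
  unfold e
  rw [Complex.exp_mul_I, Complex.ofReal_cos, Complex.ofReal_sin]
  ring

lemma comp_sub_natDegree (P : ℝ[X]) (h : ℝ) (hP : 0 < P.natDegree) :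
    (P.comp (X + C h) - P).natDegree < P.natDegree := by
  have hP0 : P ≠ 0 := by
    rintro rfl
    simp at hP
  have hd : (P.comp (X + C h)).degree = P.degree := by
    have h1 : (P.comp (X + C h)).natDegree = P.natDegree := by
      rw [natDegree_comp, natDegree_X_add_C, mul_one]
    have h2 : P.comp (X + C h) ≠ 0 := by
      intro h3
      rw [h3] at h1
      simp at h1
      omega
    rw [degree_eq_natDegree h2, degree_eq_natDegree hP0, h1]
  have hlc : (P.comp (X + C h)).leadingCoeff = P.leadingCoeff := by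
    rw [leadingCoeff_comp (by rw [natDegree_X_add_C]; norm_num), leadingCoeff_X_add_C, one_pow,
      mul_one]
  have h2 : P.comp (X + C h) ≠ 0 := by
    intro h3
    rw [h3, degree_zero] at hd
    exact hP0 (degree_eq_bot.1 hd.symm)
  have h1 := degree_sub_lt hd h2 hlc
  rw [hd] at h1
  by_cases h0 : P.comp (X + C h) - P = 0
  · rw [h0]
    simpa using hP
  · exact (natDegree_lt_natDegree_iff h0).2 h1

lemma cube {ι : Type*} [DecidableEq ι] (S : Finset ι) (m : ι → ℝ) : ∀ P : ℝ[X],
    P.natDegree < S.card → ∀ x : ℝ,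
    ∑ T ∈ S.powerset, (-1 : ℝ) ^ T.card * P.eval (x + ∑ u ∈ T, m u) = 0 := by
  induction S using Finset.induction_on with
  | empty => intro P hP; simp at hP
  | insert a S ha ih =>
    intro P hP x
    rw [card_insert_of_notMem ha] at hP
    rw [sum_powerset_insert ha, ← sum_add_distrib]
    have h1 : ∀ T ∈ S.powerset, (-1 : ℝ) ^ T.card * P.eval (x + ∑ u ∈ T, m u) +
        (-1 : ℝ) ^ (insert a T).card * P.eval (x + ∑ u ∈ insert a T, m u) =
        - ((-1 : ℝ) ^ T.card * (P.comp (X + C (m a)) - P).eval (x + ∑ u ∈ T, m u)) := by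
      intro T hT
      have haT : a ∉ T := fun h => ha (mem_powerset.1 hT h)
      rw [card_insert_of_notMem haT, sum_insert haT, eval_sub, eval_comp, eval_add, eval_X, eval_C,
        pow_succ]
      rw [show x + (m a + ∑ u ∈ T, m u) = x + ∑ u ∈ T, m u + m a by ring]
      ring
    rw [sum_congr rfl h1, sum_neg_distrib, neg_eq_zero]
    rcases Nat.eq_zero_or_pos P.natDegree with h0 | h0
    · rw [eq_C_of_natDegree_eq_zero h0]
      simp
    · exact ih _ (by have := comp_sub_natDegree P (m a) h0; omega) x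

/-- the nonempty sets of directions -/
abbrev NE (s : ℕ) : Type := {T : Finset (Fin (s + 1)) // T.Nonempty}

lemma phase {s : ℕ} (P : ℝ[X]) (hP : P.natDegree ≤ s) (x : ℝ) (m : Fin (s + 1) → ℝ) :
    e (P.eval x) = ∏ T : NE s, e ((-1 : ℝ) ^ (T.1.card + 1) * P.eval (x + ∑ u ∈ T.1, m u)) := by
  classical
  have h := cube (Finset.univ : Finset (Fin (s + 1))) m P (by rw [card_univ, Fintype.card_fin]; omega) x
  rw [powerset_univ] at h
  rw [← e_sum]
  congr 1
  have h1 : ∑ T : NE s, (-1 : ℝ) ^ (T.1.card + 1) * P.eval (x + ∑ u ∈ T.1, m u)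
      = ∑ T ∈ (Finset.univ : Finset (Finset (Fin (s + 1)))).filter (fun T => T.Nonempty),
        (-1 : ℝ) ^ (T.card + 1) * P.eval (x + ∑ u ∈ T, m u) := by
    rw [← Finset.sum_subtype (F := inferInstance) (p := fun T : Finset (Fin (s + 1)) => T.Nonempty)
      ((Finset.univ : Finset (Finset (Fin (s + 1)))).filter (fun T => T.Nonempty))
      (by intro T; simp) (fun T => (-1 : ℝ) ^ (T.card + 1) * P.eval (x + ∑ u ∈ T, m u))]
  rw [h1]
  rw [← Finset.sum_filter_add_sum_filter_not _ (fun T : Finset (Fin (s + 1)) => T.Nonempty)] at h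
  have h2 : (Finset.univ : Finset (Finset (Fin (s + 1)))).filter (fun T => ¬ T.Nonempty) = {∅} := by
    ext T
    simp
  rw [h2, sum_singleton, card_empty, pow_zero, one_mul, sum_empty, add_zero] at h
  have h3 : ∑ T ∈ (Finset.univ : Finset (Finset (Fin (s + 1)))).filter (fun T => T.Nonempty),
        (-1 : ℝ) ^ (T.card + 1) * P.eval (x + ∑ u ∈ T, m u) =
      - ∑ T ∈ (Finset.univ : Finset (Finset (Fin (s + 1)))).filter (fun T => T.Nonempty),
        (-1 : ℝ) ^ T.card * P.eval (x + ∑ u ∈ T, m u) := by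
    rw [← sum_neg_distrib]
    refine sum_congr rfl fun T _ => ?_
    rw [pow_succ]
    ring
  rw [h3]
  linarith

/-- product of `q` phases as a sum of products of sines and cosines -/
lemma prod_cs {q : ℕ} (t : Fin q → ℝ) : ∏ j, e (t j) = ∑ A ∈ (Finset.univ : Finset (Fin q)).powerset,
    Complex.I ^ (Finset.univ \ A).card * ((∏ j, (if j ∈ A then Real.cos (2 * Real.pi * t j)
      else Real.sin (2 * Real.pi * t j)) : ℝ) : ℂ) := by
  classical
  simp_rw [e_cs]
  rw [Finset.prod_add]
  refine sum_congr rfl fun A hA => ?_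
  rw [Finset.prod_mul_distrib, Finset.prod_const, Complex.ofReal_prod]
  rw [← Finset.prod_sdiff (Finset.subset_univ A) (f := fun j => (((if j ∈ A then
    Real.cos (2 * Real.pi * t j) else Real.sin (2 * Real.pi * t j) : ℝ)) : ℂ))]
  have h1 : ∏ x ∈ Finset.univ \ A, (((if x ∈ A then Real.cos (2 * Real.pi * t x) else
      Real.sin (2 * Real.pi * t x) : ℝ)) : ℂ) =
      ∏ x ∈ Finset.univ \ A, ((Real.sin (2 * Real.pi * t x) : ℝ) : ℂ) :=
    prod_congr rfl fun x hx => by rw [if_neg (mem_sdiff.1 hx).2]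
  have h2 : ∏ x ∈ A, (((if x ∈ A then Real.cos (2 * Real.pi * t x) else
      Real.sin (2 * Real.pi * t x) : ℝ)) : ℂ) =
      ∏ x ∈ A, ((Real.cos (2 * Real.pi * t x) : ℝ) : ℂ) :=
    prod_congr rfl fun x hx => by rw [if_pos hx]
  rw [h1, h2]
  ring

end Pool.Agent.N788.PP
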