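import Mathlib
import Pool.Agent.N788.PP.Poly
import Pool.Agent.N675.FS.Top

/-! Products of values of the Liouville function at fixed shifts against polynomial phases. -/

namespace Pool.Agent.N788.PP

open Finset Polynomial Pool.Agent.N675 Pool.Agent.N675.FS Pool.Agent.N675.RL

open Classical in
/-- exceptional scales -/
noncomputable def excS (V : ℕ → Prop) (R J N : ℕ) : Finset ℕ :=
  (Icc 1 J).filter fun i => ∃ x : ℕ, (N ≤ R * 2 ^ i * x ∧ 2 ^ i * x ≤ R * N) ∧ V x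

/-- the set of directions with number `j` -/
noncomputable def TT (s : ℕ) (j : Fin (Fintype.card (NE s))) : NE s := (Fintype.equivFin (NE s)).symm j

/-- the form `n + ∑ u ∈ T, m u` -/
noncomputable def ph (s : ℕ) (j : Fin (Fintype.card (NE s))) : Fin (s + 1 + 1) → ℤ :=
  Fin.cons 1 (fun u => if u ∈ (TT s j).1 then 1 else 0)

lemma ip_ph (s : ℕ) (j : Fin (Fintype.card (NE s))) (n : ℤ) (m : Fin (s + 1) → ℤ) :
    ip (ph s j) (Fin.cons n m : Fin (s + 1 + 1) → ℤ) = n + ∑ u ∈ (TT s j).1, m u := by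
  unfold ip ph
  rw [Fin.sum_univ_succ]
  simp only [Fin.cons_zero, Fin.cons_succ, one_mul, ite_mul, zero_mul]
  rw [Finset.sum_ite_mem, Finset.univ_inter]

lemma ip_cons {k p : ℕ} (a : Fin k → ℤ) (i : Fin k) (n : ℤ) (m : Fin p → ℤ) :
    ip (Fin.cons (a i) (fun _ => 0) : Fin (p + 1) → ℤ) (Fin.cons n m : Fin (p + 1) → ℤ) = a i * n := by
  unfold ip
  rw [Fin.sum_univ_succ]
  simp

/-- the sum with a polynomial phase -/
noncomputable def SP {k : ℕ} (a b : Fin k → ℤ) (E : Finset (Fin k)) (P : ℝ[X]) (x : ℕ) : ℂ :=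
  ∑ n ∈ Icc (1 : ℤ) x, ((∏ i ∈ E, lamA (a i * n + b i) : ℝ) : ℂ) * e (P.eval (n : ℝ))

theorem lam_poly {k : ℕ} (a b : Fin k → ℤ) (ha : ∀ i, a i ≠ 0) (E : Finset (Fin k))
    (hE : Odd E.card ∨ (E.card = 2 ∧ ∃ i ∈ E, ∃ j ∈ E, a i * b j ≠ a j * b i)) (s R : ℕ) (ε : ℝ)
    (hε : 0 < ε) :
    ∃ C : ℝ, ∀ J : ℕ, ∃ N₀ : ℕ, ∀ N : ℕ, N₀ ≤ N →
      ∑ i ∈ excS (fun x => ∃ P : ℝ[X], P.natDegree ≤ s ∧ ε * x < ‖SP a b E P x‖) R J N,
        1 / (i : ℝ) ≤ C := by
  classical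
  set q := Fintype.card (NE s) with hq
  set φ : Fin k → Fin (s + 1 + 1) → ℤ := fun i => Fin.cons (a i) (fun _ => 0) with hφ
  have hφ0 : ∀ i, φ i 0 = a i := fun i => by rw [hφ]; exact Fin.cons_zero _ _
  have hφs : ∀ i u, φ i (Fin.succ u) = 0 := fun i u => by rw [hφ]; exact Fin.cons_succ _ _ _
  have hpar : ∀ i i' : Fin k, ∀ v w, φ i v * φ i' w = φ i w * φ i' v := by
    intro i i' v w
    refine Fin.cases ?_ (fun v => ?_) v <;> refine Fin.cases ?_ (fun w => ?_) w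
    · ring
    · rw [hφs i w, hφs i' w]; ring
    · rw [hφs i v, hφs i' v]; ring
    · rw [hφs i v, hφs i w]; ring
  have hcl : ∀ i₀, cl φ E i₀ = E := by
    intro i₀
    unfold cl
    rw [Finset.filter_true_of_mem]
    intro i _ v w
    exact hpar i i₀ v w
  have hϕ : ∀ (i₀ : Fin k) (j : Fin q), ∃ v w, ph s j v * φ i₀ w ≠ ph s j w * φ i₀ v := by
    intro i₀ j
    obtain ⟨u, hu⟩ := (TT s j).2
    refine ⟨Fin.succ u, 0, ?_⟩
    rw [hφ0, hφs, mul_zero]
    unfold ph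
    rw [Fin.cons_succ, if_pos hu, one_mul]
    exact ha i₀
  have hG : GoodL (fun j : Fin 0 => (Fin.elim0 j : Fin (s + 1 + 1) → ℤ)) (ph s) φ b E := by
    rcases hE with h | ⟨h, i, hi, j, hj, hij⟩
    · obtain ⟨i₀, hi₀⟩ : E.Nonempty := by
        rw [Finset.nonempty_iff_ne_empty]
        rintro rfl
        simp at h
      exact ⟨i₀, hi₀, by rw [hφ0]; exact ha i₀, fun j => j.elim0, hϕ i₀,
        Or.inl (by rw [hcl]; exact h)⟩
    · refine ⟨j, hj, by rw [hφ0]; exact ha j, fun j => j.elim0, hϕ j, Or.inr ⟨by rw [hcl]; exact h,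
        i, by rw [hcl]; exact hi, 0, ?_⟩⟩
      rw [hφ0, hφ0]
      exact hij
  set ε' : ℝ := ε / 2 ^ q with hε'
  have hε'0 : 0 < ε' := by positivity
  obtain ⟨C, hC⟩ := lam_fl (fun j : Fin 0 => (Fin.elim0 j : Fin (s + 1 + 1) → ℤ)) (fun j => Fin.elim0 j)
    (ph s) φ b (fun j => j.elim0) (fun i h => ha i (by rw [← hφ0 i, h]; rfl))
    (fun i => i.elim0) E hG R ε' hε'0
  refine ⟨C, fun J => ?_⟩
  obtain ⟨N₀, hN₀⟩ := hC J
  refine ⟨max N₀ 1, fun N hN => (Finset.sum_le_sum_of_subset_of_nonneg ?_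
    fun _ _ _ => by positivity).trans (hN₀ N (le_trans (le_max_left _ _) hN))⟩
  have hN1 : 1 ≤ N := le_trans (le_max_right _ _) hN
  intro i hi
  unfold excS at hi
  unfold excL
  rw [Finset.mem_filter] at hi ⊢
  obtain ⟨hiJ, x, hx, P, hP, hbig⟩ := hi
  refine ⟨hiJ, x, fun _ => x, hx, fun _ => hx, ?_⟩
  by_contra hno
  push Not at hno
  have hx0 : 0 < x := by
    rcases Nat.eq_zero_or_pos x with h | h
    · rw [h] at hx
      simp at hx
      omega
    · exact h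
  -- the functions
  set σ : Fin q → ℝ := fun j => (-1 : ℝ) ^ ((TT s j).1.card + 1) with hσ
  set f : Finset (Fin q) → Fin q → ℤ → ℝ := fun A j v => if j ∈ A then
    Real.cos (2 * Real.pi * (σ j * P.eval (v : ℝ))) else
    Real.sin (2 * Real.pi * (σ j * P.eval (v : ℝ))) with hf
  have hf1 : ∀ A j v, |f A j v| ≤ 1 := by
    intro A j v
    rw [hf]
    beta_reduce
    split_ifs
    · exact Real.abs_cos_le_one _
    · exact Real.abs_sin_le_one _
  have hSL : ∀ A : Finset (Fin q), SL (fun j : Fin 0 => (Fin.elim0 j : Fin (s + 1 + 1) → ℤ))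
      (fun j => Fin.elim0 j) (ph s) (f A) x (fun _ => x)
      (fun y => ∏ i ∈ E, lamA (ip (φ i) y + b i)) ≤ ε' * (x * ∏ _j : Fin (s + 1), (x : ℝ)) :=
    fun A => hno (f A) (hf1 A)
  have hkey : ∀ m : Fin (s + 1) → ℤ, ‖SP a b E P x‖ ≤ ∑ A ∈ (Finset.univ : Finset (Fin q)).powerset,
      |∑ n ∈ Icc (1 : ℤ) x, (∏ j : Fin 0, ArithmeticFunction.vonMangoldt
        (ip ((fun j : Fin 0 => (Fin.elim0 j : Fin (s + 1 + 1) → ℤ)) j)
          (Fin.cons n m : Fin (s + 1 + 1) → ℤ) + (fun j : Fin 0 => (Fin.elim0 j : ℤ)) j).natAbs) *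
        (∏ j, f A j (ip (ph s j) (Fin.cons n m : Fin (s + 1 + 1) → ℤ))) *
        (fun y => ∏ i ∈ E, lamA (ip (φ i) y + b i)) (Fin.cons n m : Fin (s + 1 + 1) → ℤ)| := by
    intro m
    have h1 : SP a b E P x = ∑ A ∈ (Finset.univ : Finset (Fin q)).powerset,
        Complex.I ^ (Finset.univ \ A).card * ((∑ n ∈ Icc (1 : ℤ) x,
        (∏ j : Fin 0, ArithmeticFunction.vonMangoldt
        (ip ((fun j : Fin 0 => (Fin.elim0 j : Fin (s + 1 + 1) → ℤ)) j)
          (Fin.cons n m : Fin (s + 1 + 1) → ℤ) + (fun j : Fin 0 => (Fin.elim0 j : ℤ)) j).natAbs) *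
        (∏ j, f A j (ip (ph s j) (Fin.cons n m : Fin (s + 1 + 1) → ℤ))) *
        (fun y => ∏ i ∈ E, lamA (ip (φ i) y + b i)) (Fin.cons n m : Fin (s + 1 + 1) → ℤ) : ℝ) : ℂ) := by
      unfold SP
      simp_rw [Complex.ofReal_sum, Finset.mul_sum]
      rw [Finset.sum_comm]
      refine sum_congr rfl fun n _ => ?_
      have h2 : e (P.eval (n : ℝ)) = ∏ j : Fin q,
          e (σ j * P.eval ((ip (ph s j) (Fin.cons n m : Fin (s + 1 + 1) → ℤ) : ℤ) : ℝ)) := by
        rw [phase P hP (n : ℝ) (fun u => (m u : ℝ))]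
        rw [← (Fintype.equivFin (NE s)).symm.prod_comp]
        refine prod_congr rfl fun j _ => ?_
        rw [ip_ph]
        push_cast
        rfl
      rw [h2, prod_cs, Finset.mul_sum]
      refine sum_congr rfl fun A _ => ?_
      have h3 : ∀ i, ip (φ i) (Fin.cons n m : Fin (s + 1 + 1) → ℤ) = a i * n := fun i => ip_cons a i n m
      simp only [h3, Finset.univ_eq_empty, Finset.prod_empty, one_mul]
      rw [Complex.ofReal_mul]
      rw [hf]
      ring
    rw [h1]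
    refine (norm_sum_le _ _).trans (sum_le_sum fun A _ => ?_)
    rw [norm_mul, norm_pow, Complex.norm_I, one_pow, one_mul, Complex.norm_real, Real.norm_eq_abs]
  have hsum := Finset.sum_le_sum fun (m : Fin (s + 1) → ℤ)
    (_ : m ∈ Fintype.piFinset (fun _ : Fin (s + 1) => Icc (1 : ℤ) x)) => hkey m
  rw [Finset.sum_comm, Finset.sum_const, Fintype.card_piFinset_const, Int.card_Icc, nsmul_eq_mul] at hsum
  have h4 : ∑ A ∈ (Finset.univ : Finset (Fin q)).powerset, ε' * (x * ∏ _j : Fin (s + 1), (x : ℝ)) =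
      ε * x * (x : ℝ) ^ (s + 1) := by
    rw [Finset.sum_const, Finset.card_powerset, Finset.card_univ, Fintype.card_fin, nsmul_eq_mul,
      Finset.prod_const, Finset.card_univ, Fintype.card_fin, hε']
    push_cast
    field_simp
  have h5 := hsum.trans ((Finset.sum_le_sum fun A (_ : A ∈ (Finset.univ : Finset (Fin q)).powerset) =>
    hSL A).trans (le_of_eq h4))
  have h6 : ((((((x : ℤ) + 1 - 1).toNat) ^ (s + 1) : ℕ)) : ℝ) = (x : ℝ) ^ (s + 1) := by
    have : ((x : ℤ) + 1 - 1).toNat = x := by omega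
    rw [this]
    push_cast
    rfl
  rw [h6] at h5
  have hxr : (0 : ℝ) < (x : ℝ) ^ (s + 1) := by
    have : (0 : ℝ) < x := by exact_mod_cast hx0
    positivity
  have h7 : ‖SP a b E P x‖ ≤ ε * x := by
    by_contra h8
    push Not at h8
    have h9 := mul_lt_mul_of_pos_left h8 hxr
    linarith
  linarith

end Pool.Agent.N788.PP
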