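import Mathlib
import Pool.Agent.N788.PP.Lam

/-! Periodic weights. -/

namespace Pool.Agent.N788.PP

open Finset Polynomial Pool.Agent.N675 Pool.Agent.N675.FS Pool.Agent.N675.RL

lemma e_int (n : ℤ) : e (n : ℝ) = 1 := by
  unfold e
  rw [Complex.exp_eq_one_iff]
  exact ⟨n, by push_cast; ring⟩

lemma e_one_iff {t : ℝ} (h : e t = 1) : ∃ n : ℤ, t = n := by
  unfold e at h
  rw [Complex.exp_eq_one_iff] at h
  obtain ⟨n, hn⟩ := h
  refine ⟨n, ?_⟩
  have h2 : (2 * Real.pi * Complex.I : ℂ) ≠ 0 := Complex.two_pi_I_ne_zero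
  have h3 : ((t : ℝ) : ℂ) * (2 * Real.pi * Complex.I) = (n : ℂ) * (2 * Real.pi * Complex.I) := by
    rw [← hn]
    push_cast
    ring
  have h4 := mul_right_cancel₀ h2 h3
  exact_mod_cast h4

lemma e_nat_mul (j : ℕ) (t : ℝ) : e (j * t) = e t ^ j := by
  unfold e
  rw [← Complex.exp_nat_mul]
  congr 1
  push_cast
  ring

lemma char_sum {Q : ℕ} (hQ : 0 < Q) (m : ℤ) :
    ∑ j ∈ range Q, e ((j : ℝ) * ((m : ℝ) / Q)) = if (Q : ℤ) ∣ m then (Q : ℂ) else 0 := by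
  have hQr : (Q : ℝ) ≠ 0 := by exact_mod_cast hQ.ne'
  simp_rw [e_nat_mul]
  split_ifs with h
  · obtain ⟨c, hc⟩ := h
    have h1 : e ((m : ℝ) / Q) = 1 := by
      rw [hc]
      push_cast
      rw [mul_div_cancel_left₀ _ hQr]
      exact e_int c
    rw [h1]
    simp
  · have h1 : e ((m : ℝ) / Q) ≠ 1 := by
      intro h2
      obtain ⟨n, hn⟩ := e_one_iff h2
      apply h
      refine ⟨n, ?_⟩
      rw [div_eq_iff hQr] at hn
      have : (m : ℝ) = ((Q : ℤ) * n : ℤ) := by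
        rw [hn]
        push_cast
        ring
      exact_mod_cast this
    have h2 : e ((m : ℝ) / Q) ^ Q = 1 := by
      rw [← e_nat_mul, mul_div_cancel₀ _ hQr]
      exact e_int m
    have h3 := mul_geom_sum (e ((m : ℝ) / Q)) Q
    rw [h2, sub_self] at h3
    rcases mul_eq_zero.1 h3 with h4 | h4
    · exact absurd (sub_eq_zero.1 h4) h1
    · exact h4

lemma per_expand {Q : ℕ} (hQ : 0 < Q) (g : ℤ → ℝ) (hg : ∀ n m : ℤ, (Q : ℤ) ∣ n - m → g n = g m)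
    (n : ℤ) : (g n : ℂ) = ∑ r ∈ range Q, ∑ j ∈ range Q,
      ((g (r : ℤ) : ℂ) * (1 / (Q : ℂ)) * e (-((j : ℝ) * ((r : ℝ) / Q)))) *
        e ((j : ℝ) * ((n : ℝ) / Q)) := by
  have hQr : (Q : ℂ) ≠ 0 := by exact_mod_cast hQ.ne'
  have hQz : (0 : ℤ) < Q := by exact_mod_cast hQ
  have h1 : ∀ r ∈ range Q, ∑ j ∈ range Q,
      ((g (r : ℤ) : ℂ) * (1 / (Q : ℂ)) * e (-((j : ℝ) * ((r : ℝ) / Q)))) *
        e ((j : ℝ) * ((n : ℝ) / Q)) = if (Q : ℤ) ∣ n - r then (g n : ℂ) else 0 := by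
    intro r _
    have h2 : ∀ j ∈ range Q, ((g (r : ℤ) : ℂ) * (1 / (Q : ℂ)) * e (-((j : ℝ) * ((r : ℝ) / Q)))) *
        e ((j : ℝ) * ((n : ℝ) / Q)) = (g (r : ℤ) : ℂ) * (1 / (Q : ℂ)) *
          e ((j : ℝ) * (((n - r : ℤ) : ℝ) / Q)) := by
      intro j _
      rw [mul_assoc, ← e_add]
      congr 2
      push_cast
      ring
    rw [sum_congr rfl h2, ← Finset.mul_sum, char_sum hQ]
    split_ifs with h
    · rw [hg n r h]
      field_simp
    · rw [mul_zero]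
  rw [sum_congr rfl h1]
  have h3 := Int.emod_lt_of_pos n hQz
  have h4 := Int.emod_nonneg n hQz.ne'
  rw [Finset.sum_eq_single ((n % (Q : ℤ)).toNat)]
  · rw [if_pos]
    rw [Int.toNat_of_nonneg h4]
    exact Int.dvd_self_sub_emod
  · intro r hr hne
    rw [if_neg]
    intro hd
    apply hne
    have h5 : n % (Q : ℤ) = (r : ℤ) % (Q : ℤ) := (Int.emod_emod_of_dvd n (dvd_refl _)).symm.trans (by
      have := Int.emod_emod_of_dvd n (dvd_refl (Q : ℤ))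
      rw [this]
      exact (Int.emod_eq_emod_iff_emod_sub_eq_zero.2 (Int.emod_eq_zero_of_dvd hd)))
    have h6 : (r : ℤ) % (Q : ℤ) = r := Int.emod_eq_of_lt (Nat.cast_nonneg r) (by
      have := Finset.mem_range.1 hr
      exact_mod_cast this)
    omega
  · intro h
    exfalso
    apply h
    rw [Finset.mem_range]
    omega

lemma per_bound {k : ℕ} (a b : Fin k → ℤ) (E : Finset (Fin k)) (s Q : ℕ) (hQ : 0 < Q) (g : ℤ → ℝ)
    (hg : ∀ n m : ℤ, (Q : ℤ) ∣ n - m → g n = g m) (hg1 : ∀ n, |g n| ≤ 1) (x : ℕ) (δ : ℝ)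
    (h : ∀ P : ℝ[X], P.natDegree ≤ s + 1 → ‖SP a b E P x‖ ≤ δ) (P : ℝ[X]) (hP : P.natDegree ≤ s) :
    ‖∑ n ∈ Icc (1 : ℤ) x, (((∏ i ∈ E, lamA (a i * n + b i)) * g n : ℝ) : ℂ) * e (P.eval (n : ℝ))‖
      ≤ Q * δ := by
  have hQr : (Q : ℝ) ≠ 0 := by exact_mod_cast hQ.ne'
  have h1 : ∑ n ∈ Icc (1 : ℤ) x, (((∏ i ∈ E, lamA (a i * n + b i)) * g n : ℝ) : ℂ) * e (P.eval (n : ℝ))
      = ∑ r ∈ range Q, ∑ j ∈ range Q,
        ((g (r : ℤ) : ℂ) * (1 / (Q : ℂ)) * e (-((j : ℝ) * ((r : ℝ) / Q)))) *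
          SP a b E (P + Polynomial.C ((j : ℝ) / Q) * X) x := by
    unfold SP
    simp_rw [Finset.mul_sum]
    have h2 : ∀ n ∈ Icc (1 : ℤ) x, (((∏ i ∈ E, lamA (a i * n + b i)) * g n : ℝ) : ℂ) *
        e (P.eval (n : ℝ)) = ∑ r ∈ range Q, ∑ j ∈ range Q,
        ((g (r : ℤ) : ℂ) * (1 / (Q : ℂ)) * e (-((j : ℝ) * ((r : ℝ) / Q)))) *
          (((∏ i ∈ E, lamA (a i * n + b i) : ℝ) : ℂ) *
            e ((P + Polynomial.C ((j : ℝ) / Q) * X).eval (n : ℝ))) := by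
      intro n _
      rw [Complex.ofReal_mul, per_expand hQ g hg n, Finset.mul_sum, Finset.sum_mul]
      refine sum_congr rfl fun r _ => ?_
      rw [Finset.mul_sum, Finset.sum_mul]
      refine sum_congr rfl fun j _ => ?_
      rw [eval_add, eval_mul, eval_C, eval_X, e_add]
      rw [show (j : ℝ) / Q * n = (j : ℝ) * ((n : ℝ) / Q) by ring]
      ring
    rw [sum_congr rfl h2, Finset.sum_comm]
    refine sum_congr rfl fun r _ => ?_
    rw [Finset.sum_comm]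
  rw [h1]
  have h3 : ∀ r ∈ range Q, ∀ j ∈ range Q,
      ‖((g (r : ℤ) : ℂ) * (1 / (Q : ℂ)) * e (-((j : ℝ) * ((r : ℝ) / Q)))) *
          SP a b E (P + Polynomial.C ((j : ℝ) / Q) * X) x‖ ≤ 1 / Q * δ := by
    intro r _ j _
    rw [norm_mul, norm_mul, norm_mul, norm_e, mul_one, Complex.norm_real, Real.norm_eq_abs]
    have h4 : ‖(1 / (Q : ℂ))‖ = 1 / Q := by
      rw [norm_div, norm_one, Complex.norm_natCast]
    rw [h4]
    have h5 : (P + Polynomial.C ((j : ℝ) / Q) * X).natDegree ≤ s + 1 := by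
      refine (natDegree_add_le _ _).trans (max_le (by omega) ?_)
      exact (natDegree_C_mul_le _ _).trans (natDegree_X_le.trans (by omega))
    have h6 := h _ h5
    have h7 : |g (r : ℤ)| * (1 / (Q : ℝ)) ≤ 1 / Q := by
      have : (0 : ℝ) ≤ 1 / Q := by positivity
      calc _ ≤ 1 * (1 / (Q : ℝ)) := mul_le_mul_of_nonneg_right (hg1 _) this
        _ = _ := one_mul _
    exact mul_le_mul h7 h6 (norm_nonneg _) (by positivity)
  refine (norm_sum_le _ _).trans ((Finset.sum_le_sum fun r hr => (norm_sum_le _ _).trans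
    (Finset.sum_le_sum fun j hj => h3 r hr j hj)).trans (le_of_eq ?_))
  rw [Finset.sum_const, Finset.sum_const, Finset.card_range, nsmul_eq_mul, nsmul_eq_mul]
  field_simp

end Pool.Agent.N788.PP
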