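import Mathlib
import Pool.Agent.N788.PP.Char
import Pool.Agent.N675.FM.All
import Pool.Agent.N622.FM.TR

/-! Products of values of the Möbius function at fixed shifts against polynomial orbits on tori. -/

namespace Pool.Agent.N788.PP

open Finset Polynomial Pool.Agent.N675 Pool.Agent.N675.FS Pool.Agent.N675.RL Pool.Agent.N675.FM

open Classical in
lemma rare (a b : ℤ) (ha : a ≠ 0) (R : ℕ) (δ : ℝ) (hδ : 0 < δ) : ∃ D : ℕ, ∀ i : ℕ, ∃ N₀ : ℕ,
    ∀ N : ℕ, N₀ ≤ N → ∀ x : ℕ, N ≤ R * 2 ^ i * x → 2 ^ i * x ≤ R * N →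
      (((Icc (1 : ℤ) x).filter (fun n => ∃ d : ℕ, D < d ∧ a * n + b ≠ 0 ∧
        ((d : ℤ) ^ 2 ∣ a * n + b))).card : ℝ) ≤ δ * x := by
  obtain ⟨D, hD⟩ := Pool.Agent.N622.FM.t_tr 1 (fun _ => a) b (R + 1) δ
    (fun h => ha (congrFun h 0)) (Nat.succ_pos _) hδ
  refine ⟨D, fun i => ?_⟩
  obtain ⟨N₀, h⟩ := hD i
  refine ⟨N₀, fun N hN x h1 h2 => ?_⟩
  have h3 := h N hN (fun _ => 0) (fun _ => x) (by
    intro s
    refine ⟨?_, ?_, ?_⟩
    · rw [abs_zero, mul_zero]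
      positivity
    · refine h1.trans ?_
      exact Nat.mul_le_mul_right _ (Nat.mul_le_mul_right _ (Nat.le_succ R))
    · exact h2.trans (Nat.mul_le_mul_right _ (Nat.le_succ R)))
  rw [Finset.prod_const, Finset.card_univ, Fintype.card_fin, pow_one] at h3
  refine le_trans ?_ h3
  have h4 : ((Icc (1 : ℤ) x).filter (fun n => ∃ d : ℕ, D < d ∧ a * n + b ≠ 0 ∧
        ((d : ℤ) ^ 2 ∣ a * n + b))).card ≤ ((Pool.Agent.N675.FM.bx (fun _ : Fin 1 => (0 : ℤ)) (fun _ : Fin 1 => x)).filter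
          (fun y => ∃ d : ℕ, D < d ∧ (∑ s, (fun _ : Fin 1 => a) s * y s + b) ≠ 0 ∧
        ((d : ℤ) ^ 2 ∣ ∑ s, (fun _ : Fin 1 => a) s * y s + b))).card := by
    refine Finset.card_le_card_of_injOn (fun n => (fun _ : Fin 1 => n)) ?_ ?_
    · intro n hn
      rw [Finset.mem_coe, Finset.mem_filter, Finset.mem_Icc] at hn
      rw [Finset.mem_coe, Finset.mem_filter]
      refine ⟨?_, ?_⟩
      · unfold Pool.Agent.N675.FM.bx
        rw [Fintype.mem_piFinset]
        intro s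
        rw [Finset.mem_Ioc]
        show (0 : ℤ) < n ∧ n ≤ 0 + (x : ℤ)
        omega
      · simpa using hn.2
    · intro n _ n' _ hnn
      exact congrFun hnn 0
  exact_mod_cast h4

/-- the sum with weights depending on the squarefreeness of the values -/
noncomputable def SGm {k : ℕ} (a b : Fin k → ℤ) (E : Finset (Fin k)) (G : (Fin k → Bool) → ℝ)
    (P : ℝ[X]) (x : ℕ) : ℂ :=
  ∑ n ∈ Icc (1 : ℤ) x, (((∏ i ∈ E, lamA (a i * n + b i)) *
    G (fun j => sf (a j * n + b j)) : ℝ) : ℂ) * e (P.eval (n : ℝ))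

theorem gen_poly {k : ℕ} (a b : Fin k → ℤ) (ha : ∀ i, a i ≠ 0) (E : Finset (Fin k))
    (hE : Odd E.card ∨ (E.card = 2 ∧ ∃ i ∈ E, ∃ j ∈ E, a i * b j ≠ a j * b i)) (s R : ℕ) (ε : ℝ)
    (hε : 0 < ε) :
    ∃ C : ℝ, ∀ J : ℕ, ∃ N₀ : ℕ, ∀ N : ℕ, N₀ ≤ N →
      ∑ i ∈ excS (fun x => ∃ (G : (Fin k → Bool) → ℝ) (P : ℝ[X]), (∀ c, |G c| ≤ 1) ∧
        P.natDegree ≤ s ∧ ε * x < ‖SGm a b E G P x‖) R J N,
        1 / (i : ℝ) ≤ C := by
  classical
  have hk1 : (0 : ℝ) < 4 * k + 4 := by positivity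
  choose D hD using fun j => rare (a j) (b j) (ha j) R (ε / (4 * k + 4)) (by positivity)
  choose NT hNT using hD
  set D₀ : ℕ := 2 + ∑ j, D j with hD₀
  have hDle : ∀ j, D j ≤ D₀ := by
    intro j
    have := Finset.single_le_sum (f := D) (fun _ _ => Nat.zero_le _) (Finset.mem_univ j)
    omega
  set Q : ℕ := ∏ d ∈ Icc 2 D₀, d ^ 2 with hQ
  have hQ0 : 0 < Q := Finset.prod_pos fun d hd => by
    have := (Finset.mem_Icc.1 hd).1
    positivity
  have hQd : ∀ d ∈ Icc 2 D₀, d ^ 2 ∣ Q := fun d hd => Finset.dvd_prod_of_mem _ hd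
  have hQr : (0 : ℝ) < Q := by exact_mod_cast hQ0
  obtain ⟨C, hC⟩ := lam_poly a b ha E hE (s + 1) R (ε / (4 * Q)) (by positivity)
  refine ⟨C, fun J => ?_⟩
  obtain ⟨N₁, hN₁⟩ := hC J
  refine ⟨N₁ + ∑ i ∈ Icc 1 J, ∑ j, NT j i, fun N hN => (Finset.sum_le_sum_of_subset_of_nonneg ?_
    fun _ _ _ => by positivity).trans (hN₁ N (by omega))⟩
  intro i hi
  unfold excS at hi ⊢
  rw [Finset.mem_filter] at hi ⊢
  obtain ⟨hiJ, x, hx, G, P, hG, hP, hbig⟩ := hi
  refine ⟨hiJ, x, hx, ?_⟩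
  by_contra hno
  push Not at hno
  have hNTi : ∀ j, NT j i ≤ N := by
    intro j
    have h1 := Finset.single_le_sum (f := fun j => NT j i) (fun _ _ => Nat.zero_le _)
      (Finset.mem_univ j)
    have h2 := Finset.single_le_sum (f := fun i => ∑ j, NT j i)
      (fun _ _ => Nat.zero_le _) hiJ
    omega
  have hx0 : (0 : ℝ) ≤ x := Nat.cast_nonneg x
  set W : ℤ → ℝ := fun n => ∏ i ∈ E, lamA (a i * n + b i) with hW
  have hW1 : ∀ y, |W y| ≤ 1 := by
    intro y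
    rw [hW]
    simp only
    rw [Finset.abs_prod]
    refine Finset.prod_le_one (fun _ _ => abs_nonneg _) fun j _ => ?_
    unfold lamA
    rw [abs_pow]
    simp
  set U : ℂ := ∑ n ∈ Icc (1 : ℤ) x, ((W n * G (fun j => sq D₀ (a j * n + b j)) : ℝ) : ℂ) *
    e (P.eval (n : ℝ)) with hU
  -- the truncation
  have h1 : ‖SGm a b E G P x - U‖ ≤ ε / 2 * x := by
    unfold SGm
    rw [hU, ← Finset.sum_sub_distrib]
    refine (norm_sum_le _ _).trans ?_
    have h2 : ∀ n ∈ Icc (1 : ℤ) x, ‖((W n * G (fun j => sf (a j * n + b j)) : ℝ) : ℂ) *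
        e (P.eval (n : ℝ)) - ((W n * G (fun j => sq D₀ (a j * n + b j)) : ℝ) : ℂ) *
        e (P.eval (n : ℝ))‖
        ≤ ∑ j, (if (∃ d : ℕ, D j < d ∧ a j * n + b j ≠ 0 ∧
          ((d : ℤ) ^ 2 ∣ a j * n + b j)) then (2 : ℝ) else 0) := by
      intro n _
      by_cases h3 : ∀ j, sf (a j * n + b j) = sq D₀ (a j * n + b j)
      · have h4 : (fun j => sf (a j * n + b j)) = fun j => sq D₀ (a j * n + b j) :=
          funext h3
        rw [h4, sub_self, norm_zero]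
        refine Finset.sum_nonneg fun j _ => ?_
        split_ifs <;> norm_num
      · push Not at h3
        obtain ⟨j, hj⟩ := h3
        obtain ⟨d, hd1, hd2, hd3⟩ := sf_ne_sq (by omega) hj
        have h5 : ‖((W n * G (fun j => sf (a j * n + b j)) : ℝ) : ℂ) *
            e (P.eval (n : ℝ)) - ((W n * G (fun j => sq D₀ (a j * n + b j)) : ℝ) : ℂ) *
            e (P.eval (n : ℝ))‖ ≤ 2 := by
          rw [← sub_mul, norm_mul, norm_e, mul_one, ← Complex.ofReal_sub, Complex.norm_real,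
            Real.norm_eq_abs, ← mul_sub, abs_mul]
          have h6 := abs_sub (G (fun j => sf (a j * n + b j)))
            (G (fun j => sq D₀ (a j * n + b j)))
          have h7 := hG (fun j => sf (a j * n + b j))
          have h8 := hG (fun j => sq D₀ (a j * n + b j))
          calc _ ≤ 1 * 2 := mul_le_mul (hW1 n) (by linarith) (abs_nonneg _) zero_le_one
            _ = 2 := by norm_num
        refine h5.trans ?_
        have h9 := Finset.single_le_sum (f := fun j => if (∃ d : ℕ, D j < d ∧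
          a j * n + b j ≠ 0 ∧ ((d : ℤ) ^ 2 ∣ a j * n + b j))
          then (2 : ℝ) else 0) (fun j _ => by split_ifs <;> norm_num) (Finset.mem_univ j)
        refine le_trans (le_of_eq ?_) h9
        rw [if_pos]
        exact ⟨d, lt_of_le_of_lt (hDle j) hd1, hd2, hd3⟩
    refine (Finset.sum_le_sum h2).trans ?_
    rw [Finset.sum_comm]
    have h10 : ∀ j, ∑ n ∈ Icc (1 : ℤ) x, (if (∃ d : ℕ, D j < d ∧ a j * n + b j ≠ 0 ∧
          ((d : ℤ) ^ 2 ∣ a j * n + b j)) then (2 : ℝ) else 0)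
        ≤ 2 * (ε / (4 * k + 4) * x) := by
      intro j
      rw [← Finset.sum_filter, Finset.sum_const, nsmul_eq_mul, mul_comm]
      refine mul_le_mul_of_nonneg_left ?_ (by norm_num)
      exact hNT j i N (hNTi j) x hx.1 hx.2
    refine (Finset.sum_le_sum fun j _ => h10 j).trans ?_
    rw [Finset.sum_const, Finset.card_univ, Fintype.card_fin, nsmul_eq_mul]
    have h11 : (k : ℝ) * (2 * (ε / (4 * k + 4) * x)) = (2 * k / (4 * k + 4)) * (ε * x) := by
      field_simp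
    rw [h11]
    have h12 : (2 * (k : ℝ) / (4 * k + 4)) ≤ 1 / 2 := by
      rw [div_le_div_iff₀ hk1 (by norm_num)]
      have : (0 : ℝ) ≤ k := Nat.cast_nonneg k
      linarith
    have h13 : 0 ≤ ε * x := by positivity
    calc _ ≤ 1 / 2 * (ε * x) := mul_le_mul_of_nonneg_right h12 h13
      _ = _ := by ring
  -- the periodic weight
  have h2 : ‖U‖ ≤ Q * (ε / (4 * Q) * x) := by
    rw [hU]
    refine per_bound a b E s Q hQ0 (fun n => G (fun j => sq D₀ (a j * n + b j))) ?_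
      (fun n => hG _) x _ (fun P' hP' => hno P' hP') P hP
    intro n m hnm
    congr 1
    funext j
    apply sq_mod hQd
    have : a j * n + b j - (a j * m + b j) = a j * (n - m) := by ring
    rw [this]
    exact dvd_mul_of_dvd_right hnm _
  have h3 : (Q : ℝ) * (ε / (4 * Q) * x) = ε / 4 * x := by
    field_simp
  have h4 : SGm a b E G P x = (SGm a b E G P x - U) + U := by ring
  have h5 := norm_add_le (SGm a b E G P x - U) U
  rw [← h4] at h5
  have h6 : 0 ≤ ε * x := by positivity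
  rw [h3] at h2
  linarith

/-- the weight -/
noncomputable def wt {k : ℕ} (a b : Fin k → ℤ) (c : Fin k → ℕ) (n : ℤ) : ℝ :=
  ∏ i, mob (a i * n + b i) ^ c i

lemma mob_le (m : ℤ) : |mob m| ≤ 1 := by
  rw [mob_eq, abs_mul]
  have h1 : |lamA m| ≤ 1 := by
    unfold lamA
    rw [abs_pow]
    simp
  have h2 : |(if sf m = true then (1 : ℝ) else 0)| ≤ 1 := by
    split_ifs <;> simp
  calc _ ≤ (1 : ℝ) * 1 := mul_le_mul h1 h2 (abs_nonneg _) zero_le_one
    _ = 1 := one_mul _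

lemma wt_le {k : ℕ} (a b : Fin k → ℤ) (c : Fin k → ℕ) (n : ℤ) : |wt a b c n| ≤ 1 := by
  unfold wt
  rw [Finset.abs_prod]
  refine Finset.prod_le_one (fun _ _ => abs_nonneg _) fun i _ => ?_
  rw [abs_pow]
  exact pow_le_one₀ (abs_nonneg _) (mob_le _)

open Classical in
lemma wt_eq {k : ℕ} (a b : Fin k → ℤ) (c : Fin k → ℕ) (n : ℤ) :
    wt a b c n = (∏ i ∈ (Finset.univ : Finset (Fin k)).filter (fun i => Odd (c i)),
      lamA (a i * n + b i)) * ∏ i, (if c i = 0 ∨ sf (a i * n + b i) = true then (1 : ℝ) else 0) := by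
  unfold wt
  rw [Finset.prod_filter, ← Finset.prod_mul_distrib]
  refine prod_congr rfl fun i _ => ?_
  rw [mob_pow]

theorem mu_poly {k : ℕ} (a b : Fin k → ℤ) (ha : ∀ i, a i ≠ 0) (c : Fin k → ℕ)
    (E : Finset (Fin k)) (hEc : ∀ i, i ∈ E ↔ Odd (c i))
    (hE : Odd E.card ∨ (E.card = 2 ∧ ∃ i ∈ E, ∃ j ∈ E, a i * b j ≠ a j * b i)) (s R : ℕ) (ε : ℝ)
    (hε : 0 < ε) :
    ∃ C : ℝ, ∀ J : ℕ, ∃ N₀ : ℕ, ∀ N : ℕ, N₀ ≤ N →
      ∑ i ∈ excS (fun x => ∃ P : ℝ[X], P.natDegree ≤ s ∧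
        ε * x < ‖∑ n ∈ Icc (1 : ℤ) x, (wt a b c n : ℂ) * e (P.eval (n : ℝ))‖) R J N,
        1 / (i : ℝ) ≤ C := by
  classical
  have hE' : E = (Finset.univ : Finset (Fin k)).filter (fun i => Odd (c i)) := by
    ext i
    rw [hEc]
    simp
  obtain ⟨C, hC⟩ := gen_poly a b ha E hE s R ε hε
  refine ⟨C, fun J => ?_⟩
  obtain ⟨N₀, hN₀⟩ := hC J
  refine ⟨N₀, fun N hN => (Finset.sum_le_sum_of_subset_of_nonneg ?_
    fun _ _ _ => by positivity).trans (hN₀ N hN)⟩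
  intro i hi
  unfold excS at hi ⊢
  rw [Finset.mem_filter] at hi ⊢
  obtain ⟨hiJ, x, hx, P, hP, hbig⟩ := hi
  refine ⟨hiJ, x, hx, fun v => ∏ i, (if c i = 0 ∨ v i = true then (1 : ℝ) else 0), P, ?_, hP, ?_⟩
  · intro v
    rw [Finset.abs_prod]
    refine Finset.prod_le_one (fun _ _ => abs_nonneg _) fun i _ => ?_
    split_ifs <;> simp
  · refine lt_of_lt_of_eq hbig ?_
    congr 1
    unfold SGm
    refine sum_congr rfl fun n _ => ?_
    rw [wt_eq, hE']

/-- the sum for a function on the torus -/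
noncomputable def ST {k d : ℕ} (a b : Fin k → ℤ) (c : Fin k → ℕ) (F : UnitAddTorus (Fin d) → ℂ)
    (P : Fin d → ℝ[X]) (x : ℕ) : ℂ :=
  ∑ n ∈ Icc (1 : ℤ) x, (wt a b c n : ℂ) * F (fun j => (((P j).eval (n : ℝ) : ℝ) : UnitAddCircle))

lemma mF {d : ℕ} (κ : Fin d → ℤ) (t : Fin d → ℝ) :
    UnitAddTorus.mFourier κ (fun j => ((t j : ℝ) : UnitAddCircle)) = e (∑ j, (κ j : ℝ) * t j) := by
  rw [e_sum]
  unfold UnitAddTorus.mFourier
  simp only [ContinuousMap.coe_mk]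
  refine prod_congr rfl fun j _ => ?_
  rw [fourier_coe_apply]
  unfold e
  congr 1
  push_cast
  ring

theorem good_span {k d : ℕ} (a b : Fin k → ℤ) (c : Fin k → ℕ) (s : ℕ)
    (T : C(UnitAddTorus (Fin d), ℂ))
    (hT : T ∈ Submodule.span ℂ (Set.range (UnitAddTorus.mFourier (d := Fin d)))) :
    ∃ A : ℝ, 0 ≤ A ∧ ∀ (x : ℕ) (δ : ℝ), (∀ P : ℝ[X], P.natDegree ≤ s →
      ‖∑ n ∈ Icc (1 : ℤ) x, (wt a b c n : ℂ) * e (P.eval (n : ℝ))‖ ≤ δ) →
      ∀ P : Fin d → ℝ[X], (∀ j, (P j).natDegree ≤ s) → ‖ST a b c T P x‖ ≤ A * δ := by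
  induction hT using Submodule.span_induction with
  | mem T hT =>
    obtain ⟨κ, rfl⟩ := hT
    refine ⟨1, zero_le_one, fun x δ h P hP => ?_⟩
    rw [one_mul]
    have h1 := h (∑ j, Polynomial.C (κ j : ℝ) * P j) (by
      refine natDegree_sum_le_of_forall_le _ _ fun j _ => ?_
      exact (natDegree_C_mul_le _ _).trans (hP j))
    refine le_of_eq_of_le ?_ h1
    congr 1
    unfold ST
    refine sum_congr rfl fun n _ => ?_
    rw [mF, eval_finsetSum]
    simp_rw [eval_mul, eval_C]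
  | zero =>
    refine ⟨0, le_rfl, fun x δ _ P _ => ?_⟩
    unfold ST
    simp
  | add T₁ T₂ _ _ h₁ h₂ =>
    obtain ⟨A₁, hA₁, h₁⟩ := h₁
    obtain ⟨A₂, hA₂, h₂⟩ := h₂
    refine ⟨A₁ + A₂, add_nonneg hA₁ hA₂, fun x δ h P hP => ?_⟩
    have h3 : ST a b c (T₁ + T₂ : C(UnitAddTorus (Fin d), ℂ)) P x
        = ST a b c T₁ P x + ST a b c T₂ P x := by
      unfold ST
      rw [← Finset.sum_add_distrib]
      refine sum_congr rfl fun n _ => ?_
      rw [ContinuousMap.add_apply, mul_add]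
    rw [h3, add_mul]
    exact (norm_add_le _ _).trans (add_le_add (h₁ x δ h P hP) (h₂ x δ h P hP))
  | smul z T _ h₁ =>
    obtain ⟨A₁, hA₁, h₁⟩ := h₁
    refine ⟨‖z‖ * A₁, mul_nonneg (norm_nonneg _) hA₁, fun x δ h P hP => ?_⟩
    have h3 : ST a b c (z • T : C(UnitAddTorus (Fin d), ℂ)) P x
        = z * ST a b c T P x := by
      unfold ST
      rw [Finset.mul_sum]
      refine sum_congr rfl fun n _ => ?_
      rw [ContinuousMap.smul_apply, smul_eq_mul]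
      ring
    rw [h3, norm_mul, mul_assoc]
    exact mul_le_mul_of_nonneg_left (h₁ x δ h P hP) (norm_nonneg _)

theorem mu_torus {k d : ℕ} (a b : Fin k → ℤ) (ha : ∀ i, a i ≠ 0) (c : Fin k → ℕ)
    (E : Finset (Fin k)) (hEc : ∀ i, i ∈ E ↔ Odd (c i))
    (hE : Odd E.card ∨ (E.card = 2 ∧ ∃ i ∈ E, ∃ j ∈ E, a i * b j ≠ a j * b i))
    (F : C(UnitAddTorus (Fin d), ℂ)) (s R : ℕ) (ε : ℝ) (hε : 0 < ε) :
    ∃ C : ℝ, ∀ J : ℕ, ∃ N₀ : ℕ, ∀ N : ℕ, N₀ ≤ N →
      ∑ i ∈ excS (fun x => ∃ P : Fin d → ℝ[X], (∀ j, (P j).natDegree ≤ s) ∧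
        ε * x < ‖ST a b c F P x‖) R J N, 1 / (i : ℝ) ≤ C := by
  classical
  have hcl : F ∈ closure ((Submodule.span ℂ (Set.range (UnitAddTorus.mFourier (d := Fin d))) :
      Submodule ℂ C(UnitAddTorus (Fin d), ℂ)) : Set C(UnitAddTorus (Fin d), ℂ)) := by
    rw [← Submodule.topologicalClosure_coe, UnitAddTorus.span_mFourier_closure_eq_top]
    exact Submodule.mem_top
  obtain ⟨T, hT, hFT⟩ := Metric.mem_closure_iff.1 hcl (ε / 4) (by positivity)
  obtain ⟨A, hA, hAT⟩ := good_span a b c s T hT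
  obtain ⟨C, hC⟩ := mu_poly a b ha c E hEc hE s R (ε / (4 * (A + 1))) (by positivity)
  refine ⟨C, fun J => ?_⟩
  obtain ⟨N₀, hN₀⟩ := hC J
  refine ⟨N₀, fun N hN => (Finset.sum_le_sum_of_subset_of_nonneg ?_
    fun _ _ _ => by positivity).trans (hN₀ N hN)⟩
  intro i hi
  unfold excS at hi ⊢
  rw [Finset.mem_filter] at hi ⊢
  obtain ⟨hiJ, x, hx, P, hP, hbig⟩ := hi
  refine ⟨hiJ, x, hx, ?_⟩
  by_contra hno
  push Not at hno
  have h1 := hAT x _ hno P hP
  have hx0 : (0 : ℝ) ≤ x := Nat.cast_nonneg x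
  have h2 : A * (ε / (4 * (A + 1)) * x) ≤ ε / 4 * x := by
    have h3 : A * (ε / (4 * (A + 1)) * x) = (A / (A + 1)) * (ε / 4 * x) := by
      field_simp
    rw [h3]
    have h4 : A / (A + 1) ≤ 1 := by
      rw [div_le_one (by linarith)]
      linarith
    have h5 : 0 ≤ ε / 4 * x := by positivity
    calc _ ≤ 1 * (ε / 4 * x) := mul_le_mul_of_nonneg_right h4 h5
      _ = _ := one_mul _
  have h3 : ‖ST a b c F P x - ST a b c T P x‖ ≤ ε / 4 * x := by
    unfold ST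
    rw [← Finset.sum_sub_distrib]
    refine (norm_sum_le _ _).trans ?_
    have h4 : ∀ n ∈ Icc (1 : ℤ) x, ‖(wt a b c n : ℂ) *
        F (fun j => (((P j).eval (n : ℝ) : ℝ) : UnitAddCircle)) - (wt a b c n : ℂ) *
        T (fun j => (((P j).eval (n : ℝ) : ℝ) : UnitAddCircle))‖ ≤ ε / 4 := by
      intro n _
      rw [← mul_sub, norm_mul, Complex.norm_real, Real.norm_eq_abs]
      have h5 := ContinuousMap.dist_apply_le_dist (f := F) (g := T)
        (fun j => (((P j).eval (n : ℝ) : ℝ) : UnitAddCircle))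
      rw [dist_eq_norm] at h5
      calc _ ≤ (1 : ℝ) * (ε / 4) := mul_le_mul (wt_le a b c n) (h5.trans hFT.le)
            (norm_nonneg _) zero_le_one
        _ = _ := one_mul _
    refine (Finset.sum_le_sum h4).trans ?_
    rw [Finset.sum_const, Int.card_Icc, nsmul_eq_mul]
    have h6 : ((x : ℤ) + 1 - 1).toNat = x := by omega
    rw [h6, mul_comm]
  have h4 : ST a b c F P x = (ST a b c F P x - ST a b c T P x) + ST a b c T P x := by ring
  have h5 := norm_add_le (ST a b c F P x - ST a b c T P x) (ST a b c T P x)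
  rw [← h4] at h5
  have h6 : 0 ≤ ε * x := by positivity
  linarith

end Pool.Agent.N788.PP
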